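import Pool.Agent.R951.PCE.E

open Matrix Cardinal

namespace Pool.Agent.Results.MP_0be93d_co.Characterization

/-- The unit sphere `S²` of `ℝ³`. -/
def S2 : Set (Fin 3 → ℝ) := {x | x ⬝ᵥ x = 1}

/-- The orthogonal group `O(3)`, as a set of real `3 × 3` matrices. -/
def O3 : Set (Matrix (Fin 3) (Fin 3) ℝ) := {A | Aᵀ * A = 1}

/-- The special orthogonal group `SO(3)`, as a set of real `3 × 3` matrices. -/
def SO3 : Set (Matrix (Fin 3) (Fin 3) ℝ) := {A | Aᵀ * A = 1 ∧ A.det = 1}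

/-- A colouring `f` of `S²` with `k` colours is `Γ`-distinguishing if the identity is the only
`A ∈ Γ` with `f (A x) = f x` for all `x ∈ S²`. -/
def Distinguishing (Γ : Set (Matrix (Fin 3) (Fin 3) ℝ)) {k : ℕ} (f : S2 → Fin k) : Prop :=
  ∀ A ∈ Γ, (∀ x y : S2, y.1 = A *ᵥ x.1 → f y = f x) → A = 1

/-- The distinguishing number: the least `k` for which there is a `Γ`-distinguishing colouring
of `S²` with `k` colours. -/
noncomputable def distNumber (Γ : Set (Matrix (Fin 3) (Fin 3) ℝ)) : ℕ :=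
  sInf {k : ℕ | ∃ f : S2 → Fin k, Distinguishing Γ f}

/-- No nonidentity element of `Γ` fixes every point of `W`. -/
def TrivialStabilizer (Γ : Set (Matrix (Fin 3) (Fin 3) ℝ)) (W : Set S2) : Prop :=
  ∀ A ∈ Γ, (∀ x ∈ W, A *ᵥ x.1 = x.1) → A = 1

/-- The precolouring extension property `P(W, Γ)`: every colouring of the complement of `W` with
`k` colours, `k` the distinguishing number, extends to a `Γ`-distinguishing colouring. -/
def PrecolExt (Γ : Set (Matrix (Fin 3) (Fin 3) ℝ)) (W : Set S2) : Prop :=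
  ∀ c : {x : S2 // x ∉ W} → Fin (distNumber Γ),
    ∃ f : S2 → Fin (distNumber Γ), (∀ x : {x : S2 // x ∉ W}, f x.1 = c x) ∧ Distinguishing Γ f

open Pool.Agent.R951.PCE

theorem mk_S2 : 𝔠 ≤ #S2 := by
  rw [← mk_real]
  refine mk_le_of_injective (f := fun t : ℝ =>
    (⟨![(1 - t ^ 2) / (1 + t ^ 2), 2 * t / (1 + t ^ 2), 0], ?_⟩ : S2)) ?_
  · have h : (1 + t ^ 2 : ℝ) ≠ 0 := by positivity
    simp only [S2, Set.mem_ofPred_eq, dotProduct, Fin.sum_univ_three, Matrix.cons_val_zero,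
      Matrix.cons_val_one, Matrix.cons_val]
    field_simp
    ring
  · intro t s h
    have h1 := congrArg (fun x : S2 => x.1 0) h
    have h2 := congrArg (fun x : S2 => x.1 1) h
    simp only [Matrix.cons_val_zero, Matrix.cons_val_one] at h1 h2
    have ht : (1 + t ^ 2 : ℝ) ≠ 0 := by positivity
    have hs : (1 + s ^ 2 : ℝ) ≠ 0 := by positivity
    have e1 : t = (2 * t / (1 + t ^ 2)) / (1 + (1 - t ^ 2) / (1 + t ^ 2)) := by
      field_simp; ring
    have e2 : s = (2 * s / (1 + s ^ 2)) / (1 + (1 - s ^ 2) / (1 + s ^ 2)) := by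
      field_simp; ring
    rw [e1, e2, h1, h2]

/-- the standard basis vectors as points of the sphere -/
noncomputable def ee (i : Fin 3) : S2 := ⟨Pi.single i 1, by simp [S2]⟩

theorem eq_one_of_fix (A : Matrix (Fin 3) (Fin 3) ℝ) (h : ∀ i, A *ᵥ (ee i).1 = (ee i).1) :
    A = 1 := by
  ext i j
  have := congrFun (h j) i
  simp [ee] at this
  rw [this]
  simp [Matrix.one_apply, Pi.single_apply]

/-- the half-turn matrix -/
noncomputable def hm (q : Fin 3 → ℝ) : Matrix (Fin 3) (Fin 3) ℝ :=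
  (2 / (q ⬝ᵥ q)) • vecMulVec q q - 1

theorem hm_mulVec (q v : Fin 3 → ℝ) : hm q *ᵥ v = hs q v := by
  rw [hm, hs, sub_mulVec, smul_mulVec, one_mulVec]
  congr 1
  funext i
  simp [vecMulVec, mulVec, dotProduct, Fin.sum_univ_three]
  ring

theorem hm_mem (q : Fin 3 → ℝ) (hq : q ⬝ᵥ q ≠ 0) : hm q ∈ SO3 := by
  obtain ⟨r, hr⟩ : ∃ r, r = 2 / (q ⬝ᵥ q) := ⟨_, rfl⟩
  have hrs : r * (q 0 * q 0 + q 1 * q 1 + q 2 * q 2) = 2 := by
    have : q ⬝ᵥ q = q 0 * q 0 + q 1 * q 1 + q 2 * q 2 := by simp [dotProduct, Fin.sum_univ_three]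
    rw [← this, hr]
    field_simp
  have hrr : r * r * (q 0 * q 0 + q 1 * q 1 + q 2 * q 2) = 2 * r := by
    linear_combination r * hrs
  constructor
  · ext i j
    rw [hm, ← hr]
    fin_cases i <;> fin_cases j <;>
      simp [vecMulVec, Matrix.mul_apply, Fin.sum_univ_three, Matrix.one_apply]
    · linear_combination (q 0 * q 0) * hrr
    · linear_combination (q 0 * q 1) * hrr
    · linear_combination (q 0 * q 2) * hrr
    · linear_combination (q 1 * q 0) * hrr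
    · linear_combination (q 1 * q 1) * hrr
    · linear_combination (q 1 * q 2) * hrr
    · linear_combination (q 2 * q 0) * hrr
    · linear_combination (q 2 * q 1) * hrr
    · linear_combination (q 2 * q 2) * hrr
  · rw [hm, ← hr]
    simp [vecMulVec, det_fin_three]
    linear_combination hrs

theorem hm_ne_one (q : Fin 3 → ℝ) (hq : q ⬝ᵥ q ≠ 0) : hm q ≠ 1 := by
  intro h
  obtain ⟨r, hr⟩ : ∃ r, r = 2 / (q ⬝ᵥ q) := ⟨_, rfl⟩
  have hrs : r * (q 0 * q 0 + q 1 * q 1 + q 2 * q 2) = 2 := by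
    have : q ⬝ᵥ q = q 0 * q 0 + q 1 * q 1 + q 2 * q 2 := by simp [dotProduct, Fin.sum_univ_three]
    rw [← this, hr]
    field_simp
  have h0 := congrFun (congrFun h 0) 0
  have h1 := congrFun (congrFun h 1) 1
  have h2 := congrFun (congrFun h 2) 2
  rw [hm, ← hr] at h0 h1 h2
  simp [vecMulVec] at h0 h1 h2
  linarith

theorem gamma_le (Γ : Set (Matrix (Fin 3) (Fin 3) ℝ)) (hΓ : Γ = O3 ∨ Γ = SO3) :
    (∀ A ∈ Γ, Aᵀ * A = 1) ∧ ∀ A ∈ SO3, A ∈ Γ := by
  rcases hΓ with rfl | rfl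
  · exact ⟨fun A hA => hA, fun A hA => hA.1⟩
  · exact ⟨fun A hA => hA.1, fun A hA => hA⟩

theorem distNumber_eq (Γ : Set (Matrix (Fin 3) (Fin 3) ℝ)) (hΓ : Γ = O3 ∨ Γ = SO3) :
    distNumber Γ = 2 := by
  obtain ⟨hO, hSO⟩ := gamma_le Γ hΓ
  have h2 : 2 ∈ {k : ℕ | ∃ f : S2 → Fin k, Distinguishing Γ f} := by
    obtain ⟨f, -, hf⟩ := partC Γ hO S2 (fun w hw => hw)
      (lt_of_lt_of_le (cantor 𝔠) (power_le_power_left two_ne_zero mk_S2))
      (by
        intro A hA hA1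
        by_contra hcon
        push Not at hcon
        exact hA1 (eq_one_of_fix A fun i => hcon _ (ee i).2))
      (fun _ => 0)
    refine ⟨fun x => f x.1, ?_⟩
    intro A hA hinv
    by_contra hA1
    obtain ⟨x, hx, hne⟩ := hf A hA hA1
    have hAx : A *ᵥ x ∈ S2 := by
      show _ = _
      rw [dot_of_orth A (hO A hA)]; exact hx
    exact hne (hinv ⟨x, hx⟩ ⟨A *ᵥ x, hAx⟩ rfl)
  refine le_antisymm (Nat.sInf_le h2) ?_
  have hmem := Nat.sInf_mem ⟨2, h2⟩
  by_contra hlt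
  push Not at hlt
  change distNumber Γ ∈ {k : ℕ | ∃ f : S2 → Fin k, Distinguishing Γ f} at hmem
  obtain ⟨f, hf⟩ := hmem
  have hsub : ∀ x y, f x = f y := by
    intro x y
    have h1 := (f x).isLt
    have h2 := (f y).isLt
    apply Fin.ext
    omega
  have hq : (Pi.single (0 : Fin 3) (1 : ℝ)) ⬝ᵥ (Pi.single (0 : Fin 3) (1 : ℝ)) ≠ 0 := by simp
  exact hm_ne_one _ hq (hf _ (hSO _ (hm_mem _ hq)) (fun x y _ => hsub y x))

theorem precol_iff (Γ : Set (Matrix (Fin 3) (Fin 3) ℝ)) (hΓ : Γ = O3 ∨ Γ = SO3) (W : Set S2)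
    (hW : TrivialStabilizer Γ W) :
    PrecolExt Γ W ↔ (2 : Cardinal.{0}) ^ ℵ₀ < (2 : Cardinal.{0}) ^ #W := by
  classical
  obtain ⟨hO, hSO⟩ := gamma_le Γ hΓ
  have hmk : #(Subtype.val '' W : Set (Fin 3 → ℝ)) = #W := mk_image_eq Subtype.val_injective
  have hmem : ∀ x : S2, x.1 ∈ (Subtype.val '' W : Set (Fin 3 → ℝ)) ↔ x ∈ W := by
    intro x
    constructor
    · rintro ⟨y, hy, hxy⟩
      rwa [← Subtype.ext hxy]
    · intro h
      exact ⟨x, h, rfl⟩
  have hW1 : ∀ w ∈ (Subtype.val '' W : Set (Fin 3 → ℝ)), w ⬝ᵥ w = 1 := by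
    rintro _ ⟨w, -, rfl⟩
    exact w.2
  unfold PrecolExt
  rw [distNumber_eq Γ hΓ, two_power_aleph0, ← hmk]
  constructor
  · intro hP
    by_contra hcon
    push Not at hcon
    obtain ⟨c, hc⟩ := partB _ hW1 hcon
    obtain ⟨f, hf, hdist⟩ := hP (fun x => c x.1.1)
    obtain ⟨q, hq, hinv⟩ := hc (fun v => if h : v ∈ S2 then f ⟨v, h⟩ else 0) (by
      intro x hx hxW
      have hxS : x ∈ S2 := hx
      have h2 : (⟨x, hxS⟩ : S2) ∉ W := fun h => hxW ((hmem ⟨x, hxS⟩).2 h)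
      simp only [dif_pos hxS]
      exact hf ⟨⟨x, hxS⟩, h2⟩)
    refine hm_ne_one q hq (hdist _ (hSO _ (hm_mem q hq)) ?_)
    intro x y hxy
    have h1 := hinv x.1 x.2
    rw [hm_mulVec] at hxy
    have hyS : hs q x.1 ∈ S2 := hxy ▸ y.2
    have hxS : x.1 ∈ S2 := x.2
    simp only [dif_pos hyS, dif_pos hxS] at h1
    have hy : y = ⟨hs q x.1, hyS⟩ := Subtype.ext hxy
    rw [hy, h1]
  · intro hlt c
    obtain ⟨f, hf, hA⟩ := partC Γ hO (Subtype.val '' W) hW1 hlt (by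
      intro A hA hA1
      by_contra hcon
      push Not at hcon
      exact hA1 (hW A hA fun x hx => hcon x.1 ⟨x, hx, rfl⟩))
      (fun v => if h : ∃ hv : v ∈ S2, (⟨v, hv⟩ : S2) ∉ W then c ⟨⟨v, h.1⟩, h.2⟩ else 0)
    refine ⟨fun x => f x.1, ?_, ?_⟩
    · intro x
      have h1 : x.1.1 ∉ (Subtype.val '' W : Set (Fin 3 → ℝ)) := fun h => x.2 ((hmem x.1).1 h)
      have h2 : ∃ hv : x.1.1 ∈ S2, (⟨x.1.1, hv⟩ : S2) ∉ W := ⟨x.1.2, x.2⟩
      show f x.1.1 = c x
      rw [hf x.1.1 h1, dif_pos h2]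
    · intro A hAΓ hinv
      by_contra hA1
      obtain ⟨x, hx, hne⟩ := hA A hAΓ hA1
      have hAx : A *ᵥ x ∈ S2 := by
        show _ = _
        rw [dot_of_orth A (hO A hAΓ)]; exact hx
      exact hne (hinv ⟨x, hx⟩ ⟨A *ᵥ x, hAx⟩ rfl)

/-- Let `Γ` be `O(3)` or `SO(3)`.  For `W ⊆ S²` with trivial pointwise stabilizer the property
`P(W, Γ)` holds if and only if `2^ℵ₀ < 2^|W|`.  Hence an uncountable such `W` for which `P(W, Γ)`
fails exists if and only if `2^ℵ₁ = 2^ℵ₀`. -/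
theorem result (Γ : Set (Matrix (Fin 3) (Fin 3) ℝ)) (hΓ : Γ = O3 ∨ Γ = SO3) :
    (∀ W : Set S2, TrivialStabilizer Γ W →
      (PrecolExt Γ W ↔ (2 : Cardinal.{0}) ^ ℵ₀ < (2 : Cardinal.{0}) ^ #W)) ∧
    ((∃ W : Set S2, ¬ W.Countable ∧ TrivialStabilizer Γ W ∧ ¬ PrecolExt Γ W) ↔
      (2 : Cardinal.{0}) ^ ℵ₁ = (2 : Cardinal.{0}) ^ ℵ₀) := by
  refine ⟨fun W hW => precol_iff Γ hΓ W hW, ?_, ?_⟩
  · rintro ⟨W, hWc, hWs, hWP⟩
    rw [precol_iff Γ hΓ W hWs, not_lt] at hWP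
    have h1 : ℵ₁ ≤ #W := by
      rw [← succ_aleph0]
      apply Order.succ_le_of_lt
      by_contra h
      push Not at h
      exact hWc (Cardinal.le_aleph0_iff_set_countable.1 h)
    exact le_antisymm ((power_le_power_left two_ne_zero h1).trans hWP)
      (power_le_power_left two_ne_zero (by rw [← succ_aleph0]; exact Order.le_succ _))
  · intro h
    have h1 : ℵ₁ ≤ #S2 := by
      refine le_trans ?_ mk_S2
      rw [← succ_aleph0]
      exact Order.succ_le_of_lt aleph0_lt_continuum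
    obtain ⟨W0, hW0⟩ := le_mk_iff_exists_set.1 h1
    have hℵ : ℵ₀ ≤ ℵ₁ := by rw [← succ_aleph0]; exact Order.le_succ _
    have hcard : #(W0 ∪ Set.range ee : Set S2) = ℵ₁ := by
      apply le_antisymm
      · refine (mk_union_le _ _).trans ?_
        rw [hW0]
        exact add_le_of_le hℵ le_rfl
          ((Set.Finite.lt_aleph0 (Set.finite_range ee)).le.trans hℵ)
      · rw [← hW0]
        exact mk_le_mk_of_subset Set.subset_union_left
    have hst : TrivialStabilizer Γ (W0 ∪ Set.range ee) := by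
      intro A _ hA
      exact eq_one_of_fix A fun i => hA (ee i) (Or.inr ⟨i, rfl⟩)
    refine ⟨W0 ∪ Set.range ee, ?_, hst, ?_⟩
    · intro hc
      have := Cardinal.le_aleph0_iff_set_countable.2 hc
      rw [hcard, ← succ_aleph0] at this
      exact absurd this (not_le.2 (Order.lt_succ _))
    · rw [precol_iff Γ hΓ _ hst, hcard, h]
      exact lt_irrefl _

end Pool.Agent.Results.MP_0be93d_co.Characterization
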